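import Mathlib
import Pool.Agent.Work.MP_bb77e0_gt.Main

/-!
The space of mm-isomorphism classes of mm-spaces with the observable distance (the concentration
topology) is not sigma-compact.

For an mm-space `Y` and `ε > 0` the number of `1`-Lipschitz functions `Y → [0, 1]` with pairwise
Ky Fan distance at least `ε` is finite, and it is locally bounded in the concentration topology,
hence bounded on compact sets. Given compact sets `K 0, K 1, ...`, a diagonal choice gives a
probability measure on a countable set with the `0`-`1` metric which lies in none of them.
-/

namespace Pool.Agent.Results.MP_bb77e0_gt.NotSigmaCompact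

open Pool.Agent.Work.MP_bb77e0_gt

theorem result :
    (∀ X Y : MMSpace, dist (MM.mk X) (MM.mk Y) = dconc X Y) ∧ ¬ SigmaCompactSpace MM :=
  ⟨MM.dist_mk, not_sigmaCompact⟩

end Pool.Agent.Results.MP_bb77e0_gt.NotSigmaCompact
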